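import Mathlib

set_option autoImplicit false

namespace Pool.Agent.Results.MP_98b297_co.Counter

open Classical

section Defs
variable {V₁ V₂ : Type} (E : V₁ → V₂ → Prop)

def adj : V₁ ⊕ V₂ → V₁ ⊕ V₂ → Prop
  | .inl a, .inr b => E a b
  | .inr b, .inl a => E a b
  | _, _ => False

/-- The bigraph with left vertices `V₁`, right vertices `V₂` and edge relation `E`. -/
def gr : SimpleGraph (V₁ ⊕ V₂) where
  Adj := adj E
  symm := ⟨by rintro (a | a) (b | b) h <;> exact h⟩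
  loopless := ⟨by rintro (a | a) h <;> exact h⟩

/-- An automorphism preserves the edges and the two sides. -/
def IsAut (φ : Equiv.Perm (V₁ ⊕ V₂)) : Prop :=
  (∀ u v, (gr E).Adj (φ u) (φ v) ↔ (gr E).Adj u v) ∧ ∀ v, (φ v).isLeft = v.isLeft

def IsCutInvolution (φ : Equiv.Perm (V₁ ⊕ V₂)) : Prop :=
  IsAut E φ ∧ φ * φ = 1 ∧ ¬ ((gr E).induce {v | φ v ≠ v}).Preconnected

/-- `L` is a union of components of `G - Fix φ` (it avoids `Fix φ` and is closed under adjacency
in `G - Fix φ`), and `L`, `Fix φ`, `φ L` form a partition of the vertex set. -/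
def IsFold (φ : Equiv.Perm (V₁ ⊕ V₂)) (L : Set (V₁ ⊕ V₂)) : Prop :=
  IsCutInvolution E φ ∧ (∀ u ∈ L, φ u ≠ u) ∧
    (∀ u ∈ L, ∀ v, φ v ≠ v → (gr E).Adj u v → v ∈ L) ∧
    Disjoint L (φ '' L) ∧ ∀ v, v ∈ L ∨ φ v = v ∨ v ∈ φ '' L

/-- The left-folding map. -/
noncomputable def foldMap (φ : Equiv.Perm (V₁ ⊕ V₂)) (L : Set (V₁ ⊕ V₂)) (v : V₁ ⊕ V₂) :
    V₁ ⊕ V₂ := if v ∈ L then v else φ v

/-- Some single edge percolates to the whole edge set by preimages under left-folding maps. -/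
def CutPercolating : Prop :=
  ∃ e₀ : V₁ × V₂, E e₀.1 e₀.2 ∧ Relation.ReflTransGen
    (fun F F' : Set (V₁ × V₂) => ∃ φ L, IsFold E φ L ∧
      F' = {x | E x.1 x.2 ∧ ∃ y ∈ F, foldMap φ L (.inl x.1) = .inl y.1 ∧
        foldMap φ L (.inr x.2) = .inr y.2}) {e₀} {x | E x.1 x.2}

def foldGroup : Subgroup (Equiv.Perm (V₁ ⊕ V₂)) := Subgroup.closure {φ | ∃ L, IsFold E φ L}

end Defs

/-- Two disjoint copies of the point-line incidence graph of the Fano plane. -/
def E (a e : Fin 14) : Prop :=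
  a.1 / 7 = e.1 / 7 ∧ ((a.1 + 14 - e.1) % 7 = 0 ∨ (a.1 + 14 - e.1) % 7 = 1 ∨ (a.1 + 14 - e.1) % 7 = 3)

instance : ∀ a e, Decidable (E a e) := fun _ _ => by unfold E; infer_instance

instance : DecidableRel (gr E).Adj
  | .inl a, .inr b => inferInstanceAs (Decidable (E a b))
  | .inr b, .inl a => inferInstanceAs (Decidable (E a b))
  | .inl _, .inl _ => inferInstanceAs (Decidable False)
  | .inr _, .inr _ => inferInstanceAs (Decidable False)

lemma d1 : ∀ a b : Fin 14, a.1 / 7 = b.1 / 7 → ∃ e, E a e ∧ E b e := by decide +kernel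
lemma d3 : ∀ e : Fin 14, ∃ x y, E x e ∧ E y e ∧ ∀ e', E x e' → E y e' → e' = e := by
  decide +kernel
lemma key : ∀ p q : Fin 14, p ≠ q → q.1 / 7 = p.1 / 7 → ∃ m, E p m ∧ ¬ E q m ∧ ∃ x, E x m ∧
    (∃ n, E x n ∧ E q n ∧ ¬ E p n) ∧ ∃ y, E y m ∧ (∃ n, E y n ∧ E q n ∧ ¬ E p n) ∧
    ∀ m', E x m' → E y m' → m' = m := by decide +kernel

def Inv (F : Set (Fin 14 × Fin 14)) : Prop :=
  ∀ x ∈ F, ∀ y ∈ F, x.1.1 / 7 = y.1.1 / 7 → x = y

lemma step {φ : Equiv.Perm (Fin 14 ⊕ Fin 14)} {L : Set (Fin 14 ⊕ Fin 14)} (h : IsFold E φ L)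
    {F : Set (Fin 14 × Fin 14)} (hF : Inv F) :
    Inv {x | E x.1 x.2 ∧ ∃ y ∈ F, foldMap φ L (.inl x.1) = .inl y.1 ∧
        foldMap φ L (.inr x.2) = .inr y.2} := by
  obtain ⟨⟨⟨h1, h2⟩, h3, _⟩, h4, h5, h6, h7⟩ := h
  have h3' : ∀ v, φ (φ v) = v := fun v => by rw [← Equiv.Perm.mul_apply, h3]; rfl
  choose f hf using fun a : Fin 14 => Sum.isLeft_iff.1 (h2 (.inl a))
  have h2' : ∀ e : Fin 14, (φ (.inr e)).isRight = true := fun e => by
    have := h2 (.inr e); rw [← Sum.not_isLeft, this]; simp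
  choose g hg using fun e : Fin 14 => Sum.isRight_iff.1 (h2' e)
  have ff : ∀ a, f (f a) = a := fun a => Sum.inl_injective (by rw [← hf, ← hf, h3'])
  have gg : ∀ a, g (g a) = a := fun a => Sum.inr_injective (by rw [← hg, ← hg, h3'])
  have hE : ∀ a e, E (f a) (g e) ↔ E a e := fun a e => by
    have := h1 (.inl a) (.inr e); rwa [hf, hg] at this
  have pl : ∀ a e, .inl a ∈ L → E a e → g e ≠ e → .inr e ∈ L := fun a e ha he hne =>
    h5 _ ha (.inr e) (by rw [hg]; simpa using hne) he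
  have lp : ∀ a e, .inr e ∈ L → E a e → f a ≠ a → .inl a ∈ L := fun a e ha he hne =>
    h5 _ ha (.inl a) (by rw [hf]; simpa using hne) he
  have same : ∀ a b : Fin 14, a.1 / 7 = b.1 / 7 → (f a).1 / 7 = (f b).1 / 7 := fun a b hab => by
    obtain ⟨e, e1, e2⟩ := d1 a b hab
    exact ((hE _ _).2 e1).1.trans ((hE _ _).2 e2).1.symm
  have move : ∀ p, .inl p ∈ L → (f p).1 / 7 ≠ p.1 / 7 := by
    intro p hp hc
    have hne : p ≠ f p := fun e => h4 _ hp (by rw [hf, ← e])
    obtain ⟨m, m1, m2, x, x1, hx, y, y1, hy, hu⟩ := key p (f p) hne hc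
    have mL : .inr m ∈ L := pl p m hp m1 fun e => m2 (by rw [← e, hE]; exact m1)
    have fin : ∀ t, E t m → f t ≠ t → (∃ n, E t n ∧ E (f p) n ∧ ¬ E p n) → False := by
      rintro t t1 t2 ⟨n, n1, n2, n3⟩
      have nL := pl t n (lp t m mL t1 t2) n1 fun e => n3 (by rw [← e, hE] at n2; exact n2)
      have qL := lp (f p) n nL n2 (by rw [ff]; exact hne)
      exact Set.disjoint_left.1 h6 qL ⟨_, hp, hf p⟩
    by_cases fx : f x = x
    · by_cases fy : f y = y
      · have := hu (g m) (by rw [← fx, hE]; exact x1) (by rw [← fy, hE]; exact y1)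
        exact m2 (by rw [← this, hE]; exact m1)
      · exact fin y y1 fy hy
    · exact fin x x1 fx hx
  have allL : ∀ p, .inl p ∈ L → ∀ a e, E a e → a.1 / 7 = p.1 / 7 → .inl a ∈ L ∧ .inr e ∈ L := by
    intro p hp
    have nf : ∀ a : Fin 14, a.1 / 7 = p.1 / 7 → (f a).1 / 7 ≠ a.1 / 7 := fun a ha => by
      rw [same a p ha, ha]; exact move p hp
    have ng : ∀ a e, E a e → a.1 / 7 = p.1 / 7 → g e ≠ e := fun a e he ha h0 =>
      nf a ha (by rw [((hE _ _).2 he).1, h0, he.1])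
    intro a e he ha
    obtain ⟨l, l1, l2⟩ := d1 p a ha.symm
    have aL := lp a l (pl p l hp l1 (ng p l l1 rfl)) l2 fun h0 => nf a ha (by rw [h0])
    exact ⟨aL, pl a e aL he (ng a e he ha)⟩
  have lineL : ∀ a e, E a e → .inr e ∈ L → .inl a ∈ L := by
    intro a e he hL
    obtain ⟨x, y, x1, y1, hu⟩ := d3 e
    have ge : g e ≠ e := fun h0 => h4 _ hL (by rw [hg, h0])
    by_cases fx : f x = x
    · by_cases fy : f y = y
      · exact absurd (hu (g e) (by rw [← fx, hE]; exact x1) (by rw [← fy, hE]; exact y1)) ge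
      · exact (allL y (lp y e hL y1 fy) a e he (he.1.trans y1.1.symm)).1
    · exact (allL x (lp x e hL x1 fx) a e he (he.1.trans x1.1.symm)).1
  rintro ⟨a, e⟩ ⟨he, y, hy, p1, p2⟩ ⟨a', e'⟩ ⟨he', y', hy', q1, q2⟩ hc
  simp only at he he' p1 p2 q1 q2 hc
  unfold foldMap at p1 p2 q1 q2
  by_cases ha : Sum.inl a ∈ L
  · rw [if_pos ha] at p1
    rw [if_pos (allL a ha a e he rfl).2] at p2
    rw [if_pos (allL a ha a' e' he' hc.symm).1] at q1
    rw [if_pos (allL a ha a' e' he' hc.symm).2] at q2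
    have := hF y hy y' hy' (by rw [← Sum.inl_injective p1, ← Sum.inl_injective q1]; exact hc)
    rw [Sum.inl_injective p1, Sum.inr_injective p2, Sum.inl_injective q1, Sum.inr_injective q2, this]
  · have ha' : Sum.inl a' ∉ L := fun h0 => ha (allL a' h0 a e he hc).1
    rw [if_neg ha, hf] at p1
    rw [if_neg (fun h0 => ha (lineL a e he h0)), hg] at p2
    rw [if_neg ha', hf] at q1
    rw [if_neg (fun h0 => ha' (lineL a' e' he' h0)), hg] at q2
    have := hF y hy y' hy' (by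
      rw [← Sum.inl_injective p1, ← Sum.inl_injective q1]; exact same a a' hc)
    have e1 : f a = f a' := by rw [Sum.inl_injective p1, Sum.inl_injective q1, this]
    have e2 : g e = g e' := by rw [Sum.inr_injective p2, Sum.inr_injective q2, this]
    rw [← ff a, e1, ff, ← gg e, e2, gg]

def sw (k c : ℕ) (a : Fin 14) : Fin 14 :=
  if a.1 < 7 then ⟨7 + (k * a.1 + c) % 7, by omega⟩ else ⟨(k * k * (a.1 + 7 - c)) % 7, by omega⟩

def t (c : Fin 7) (i : Fin 3) : Fin 14 ⊕ Fin 14 → Fin 14 ⊕ Fin 14 :=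
  Sum.map (sw (2 ^ i.1) c.1) (sw (2 ^ i.1) ((c.1 + [0, 6, 4].getD i.1 0) % 7))

def inL : Fin 14 ⊕ Fin 14 → Bool
  | .inl a => a.1 < 7
  | .inr e => e.1 < 7

lemma t_inv : ∀ c i v, t c i (t c i v) = v := by decide +kernel
lemma t_adj : ∀ c i u v, (gr E).Adj (t c i u) (t c i v) ↔ (gr E).Adj u v := by decide +kernel
lemma t_left : ∀ c i v, (t c i v).isLeft = v.isLeft := by decide +kernel
lemma t_L : ∀ c i v, inL (t c i v) = !inL v := by decide +kernel
lemma L_adj : ∀ u v, (gr E).Adj u v → inL u = inL v := by decide +kernel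
lemma t_tr : ∀ a e, E a e → ∃ c i, (t c i (.inl 0) = .inl a ∧ t c i (.inr 0) = .inr e) ∨
    (t 0 0 (t c i (.inl 0)) = .inl a ∧ t 0 0 (t c i (.inr 0)) = .inr e) := by decide +kernel

lemma fold_of (c : Fin 7) (i : Fin 3) :
    Function.Involutive.toPerm (t c i) (t_inv c i) ∈ foldGroup E := by
  have ne : ∀ v, t c i v ≠ v := fun v h => by
    have := t_L c i v
    rw [h] at this
    simp at this
  refine Subgroup.subset_closure ⟨{v | inL v = true}, ⟨⟨t_adj c i, t_left c i⟩,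
    Equiv.ext (t_inv c i), fun hc => ?_⟩, fun u _ => ne u,
    fun u hu v _ h => (L_adj u v h).symm.trans hu, ?_, fun v => ?_⟩
  · have := hc ⟨.inl 0, ne (.inl 0)⟩ ⟨.inl 7, ne (.inl 7)⟩
    rw [SimpleGraph.reachable_iff_reflTransGen] at this
    have k : ∀ v : {v | Function.Involutive.toPerm (t c i) (t_inv c i) v ≠ v},
        Relation.ReflTransGen ((gr E).induce
          {v | Function.Involutive.toPerm (t c i) (t_inv c i) v ≠ v}).Adj ⟨.inl 0, ne (.inl 0)⟩ v →
          inL v.1 = true := by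
      intro v hv
      induction hv with
      | refl => rfl
      | tail _ h ih => exact (L_adj _ _ h).symm.trans ih
    exact absurd (show inL (.inl 7) = true from k _ this) (by decide)
  · rw [Set.disjoint_right]
    rintro _ ⟨u, hu, rfl⟩ h
    have := t_L c i u
    rw [show inL (t c i u) = true from h, show inL u = true from hu] at this
    exact absurd this (by simp)
  · by_cases h : inL v = true
    · exact Or.inl h
    · refine Or.inr (Or.inr ⟨t c i v, ?_, t_inv c i v⟩)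
      show inL (t c i v) = true
      rw [t_L]; simpa using h

theorem result : ∃ (V₁ V₂ : Type) (_ : Fintype V₁) (_ : Fintype V₂) (E : V₁ → V₂ → Prop),
    (∃ a e, E a e) ∧
    (∀ a e a' e', E a e → E a' e' →
      ∃ γ ∈ foldGroup E, γ (.inl a) = .inl a' ∧ γ (.inr e) = .inr e') ∧
    ¬ CutPercolating E := by
  refine ⟨Fin 14, Fin 14, inferInstance, inferInstance, E, ⟨0, 0, by decide⟩, ?_, ?_⟩
  · have base : ∀ a e, E a e → ∃ γ ∈ foldGroup E, γ (.inl 0) = .inl a ∧ γ (.inr 0) = .inr e := by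
      intro a e h
      obtain ⟨c, i, h | h⟩ := t_tr a e h
      · exact ⟨_, fold_of c i, h⟩
      · exact ⟨_, mul_mem (fold_of 0 0) (fold_of c i), h⟩
    intro a e a' e' h h'
    obtain ⟨γ, hγ, p1, p2⟩ := base a e h
    obtain ⟨δ, hδ, q1, q2⟩ := base a' e' h'
    refine ⟨δ * γ⁻¹, mul_mem hδ (inv_mem hγ), ?_, ?_⟩
    · rw [← p1, ← q1]; simp
    · rw [← p2, ← q2]; simp
  · rintro ⟨u, -, h⟩
    have k : ∀ F, Relation.ReflTransGen (fun F F' : Set (Fin 14 × Fin 14) => ∃ φ L, IsFold E φ L ∧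
        F' = {x | E x.1 x.2 ∧ ∃ y ∈ F, foldMap φ L (.inl x.1) = .inl y.1 ∧
          foldMap φ L (.inr x.2) = .inr y.2}) {u} F → Inv F := by
      intro F hF
      induction hF with
      | refl => rintro a rfl b rfl _; rfl
      | tail _ h ih =>
        obtain ⟨φ, L, h, rfl⟩ := h
        exact step h ih
    have := k _ h (0, 0) (show E 0 0 by decide) (1, 0) (show E 1 0 by decide) rfl
    exact absurd this (by decide)

end Pool.Agent.Results.MP_98b297_co.Counter
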